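import Pool.Agent.W2helper58.HP.Main

/-!
# MP_e2be99_lc: explicit hitting sets for deep circuits whose powers are high

Circuits of any depth `Δ` over `ℚ`: layer `0` consists of products of `m` affine forms; a gate of
layer `r + 1` is a sum of `k r` terms `A * h ^ E r`, where `A` is an affine form and `h` a gate of
layer `r`.  Each layer has `s` gates, which may be used any number of times.  The only condition
is that the power is high compared with the fan-in of the sums: `E r ≥ 4 * (k r) ^ 2`.  The output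
is any product of powers of gates of any layers.
-/

namespace Pool.Agent.Results.MP_e2be99_lc.DeepHighPowers

theorem result (n s m Δ D : ℕ) (k E : ℕ → ℕ) (hE : ∀ r, 4 * k r ^ 2 ≤ E r)
    (L : Fin s → Fin m → MvPolynomial (Fin n) ℚ) (hL : ∀ j i, (L j i).totalDegree ≤ 1)
    (g : ℕ → Fin s → MvPolynomial (Fin n) ℚ) (h0 : ∀ j, g 0 j = ∏ i, L j i)
    (hg : ∀ r < Δ, ∀ j, ∃ (A : Fin (k r) → MvPolynomial (Fin n) ℚ) (u : Fin (k r) → Fin s),
      (∀ i, (A i).totalDegree ≤ 1) ∧ g (r + 1) j = ∑ i, A i * g r (u i) ^ E r)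
    (e : ℕ → Fin s → ℕ) (f : MvPolynomial (Fin n) ℚ)
    (hf : f = ∏ r ∈ Finset.range (Δ + 1), ∏ j, g r j ^ e r j)
    (hne : f ≠ 0) (hD : f.totalDegree ≤ D) :
    ∃ c : ℕ, c ≤ ((s * m + 1) ^ 2 + 2 * s ^ 2 * ∑ r ∈ Finset.range Δ, k r) * (n + 1) ^ 2 ∧
      ∃ t : ℕ, t ≤ D ∧
        MvPolynomial.eval (fun i : Fin n =>
          (c : ℚ) ^ ((i : ℕ) + 1) + (t : ℚ) * (c : ℚ) ^ ((n + 1) * ((i : ℕ) + 1))) f ≠ 0 := by
  obtain ⟨c, hc, t, ht, h⟩ :=
    Pool.Agent.W2helper58.HP.main n s m Δ D k E hE L hL g h0 hg e f hf hne hD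
  exact ⟨c, hc, t, ht, h⟩

end Pool.Agent.Results.MP_e2be99_lc.DeepHighPowers
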